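import Mathlib
import Pool.Agent.Helper284.CPFam
import Pool.Agent.Helper284.CPCrit

set_option autoImplicit false

namespace Pool.Agent.Results.MP_48dd78_an.CriticalPeriodsGrowth

open Set Filter Topology Pool.Agent.Helper284.CPGeo Pool.Agent.Helper284.CPPoly
  Pool.Agent.Helper284.CPCells Pool.Agent.Helper284.CPLevel Pool.Agent.Helper284.CPInt
  Pool.Agent.Helper284.CPExp Pool.Agent.Helper284.CPFam

/-! ### Definitions used in the statement -/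

/-- The planar polynomial vector field with components `P` and `Q`. -/
noncomputable def field (P Q : MvPolynomial (Fin 2) ℝ) (z : ℝ × ℝ) : ℝ × ℝ :=
  (MvPolynomial.eval ![z.1, z.2] P, MvPolynomial.eval ![z.1, z.2] Q)

/-- `O` is a non-constant periodic orbit of the vector field `F`, and `T` is its minimal period. -/
def IsPeriodicOrbit (F : ℝ × ℝ → ℝ × ℝ) (O : Set (ℝ × ℝ)) (T : ℝ) : Prop :=
  ∃ γ : ℝ → ℝ × ℝ, (∀ t, HasDerivAt γ (F (γ t)) t) ∧ Set.range γ = O ∧ 0 < T ∧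
    (∀ t, γ (t + T) = γ t) ∧ ∀ τ, 0 < τ → τ < T → γ τ ≠ γ 0

/-- A smooth one-parameter continuum of periodic orbits `O s`, `s ∈ (0, L)`, ending at a centre `p`:
the orbit `O s` is periodic with minimal period `T s` and passes through the point `σ s` of a smooth
arc transversal to the field; different parameters give different orbits; the orbits shrink to the
equilibrium `p` as `s → 0`, and together with `p` they fill a neighbourhood of `p`. -/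
structure IsCenterFamily (F : ℝ × ℝ → ℝ × ℝ) (p : ℝ × ℝ) (L : ℝ) (σ : ℝ → ℝ × ℝ)
    (O : ℝ → Set (ℝ × ℝ)) (T : ℝ → ℝ) : Prop where
  equilibrium : F p = 0
  periodic : ∀ s ∈ Ioo 0 L, IsPeriodicOrbit F (O s) (T s)
  mem : ∀ s ∈ Ioo 0 L, σ s ∈ O s
  smooth_arc : ContDiffOn ℝ (⊤ : ℕ∞) σ (Ioo 0 L)
  transversal : ∀ s ∈ Ioo 0 L,
    (deriv σ s).1 * (F (σ s)).2 - (deriv σ s).2 * (F (σ s)).1 ≠ 0
  smooth_period : ContDiffOn ℝ (⊤ : ℕ∞) T (Ioo 0 L)
  injective : ∀ s ∈ Ioo 0 L, ∀ s' ∈ Ioo 0 L, O s = O s' → s = s'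
  shrink : ∀ U ∈ 𝓝 p, ∃ δ, 0 < δ ∧ ∀ s ∈ Ioo 0 L, s < δ → O s ⊆ U
  center : insert p (⋃ s ∈ Ioo 0 L, O s) ∈ 𝓝 p

/-- The set of critical periodic orbits of the field `F`, over all its period annuli: the orbits
`O s` of the continua ending at a centre for which `s` is an isolated zero of `T'`. -/
def criticalOrbits (F : ℝ × ℝ → ℝ × ℝ) : Set (Set (ℝ × ℝ)) :=
  {C | ∃ (p : ℝ × ℝ) (L : ℝ) (σ : ℝ → ℝ × ℝ) (O : ℝ → Set (ℝ × ℝ)) (T : ℝ → ℝ),
    IsCenterFamily F p L σ O T ∧ ∃ s ∈ Ioo 0 L, deriv T s = 0 ∧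
      (∀ᶠ r in 𝓝[≠] s, deriv T r ≠ 0) ∧ O s = C}

/-- The maximal number (an extended natural number) of critical periods of planar polynomial
systems of degree `n`, counted over all period annuli. -/
noncomputable def maxCriticalPeriods (n : ℕ) : ℕ∞ :=
  ⨆ (P : MvPolynomial (Fin 2) ℝ) (Q : MvPolynomial (Fin 2) ℝ)
    (_ : max P.totalDegree Q.totalDegree = n), (criticalOrbits (field P Q)).encard

/-! ### Proof -/

theorem field_toR (P Q : MvPolynomial (Fin 2) ℝ) (w : ℂ) :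
    field P Q (toR w) = (pv P w, pv Q w) := rfl

theorem field_val (k : ℕ) (p : MvPolynomial (Fin 2) ℝ) (w : ℂ) :
    field (Pf k p) (Qf k p) (toR w) = toR (Complex.I * pv p w * w * (w ^ k - 1)) := by
  rw [field_toR, (PQ_eval k p w).1, (PQ_eval k p w).2]
  rfl

theorem family {k : ℕ} (hk : 0 < k) {ζ : ℂ} (hζ : ζ ^ k = 1) (hζ0 : ζ ≠ 0)
    (p : MvPolynomial (Fin 2) ℝ) {L : ℝ} (hL0 : 0 < L) (hL1 : L < 1)
    (hpos : ∀ v : ℂ, ‖v‖ ≤ L → 0 < pv p (Wf k ζ v)) :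
    IsCenterFamily (field (Pf k p) (Qf k p)) (toR ζ) L (fun s => toR (Wf k ζ (s:ℂ)))
      (Orb k ζ) (Tp k ζ p) := by
  have hsub : ∀ s ∈ Ioo 0 L, s ∈ Ioo (0:ℝ) 1 := fun s hs => ⟨hs.1, hs.2.trans hL1⟩
  have hposc : ∀ s ∈ Ioo 0 L, ∀ φ : ℝ, 0 < pv p (Wf k ζ ((s:ℂ) * Complex.exp (φ * Complex.I))) :=
    fun s hs φ => hpos _ (by rw [norm_circ hs.1.le]; exact hs.2.le)
  have hkc : (k:ℂ) ≠ 0 := by exact_mod_cast hk.ne'
  have hkr : (0:ℝ) < k := by exact_mod_cast hk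
  constructor
  · rw [field_val, hζ]
    simp [toR]
  · intro s hs
    obtain ⟨γ, h1, h2, h3, h4, h5⟩ := orbit hk hζ (pv_continuous p) hs.1 (hsub s hs).2 (hposc s hs)
    refine ⟨fun t => toR (γ t), ?_, ?_, h3, ?_, ?_⟩
    · intro t
      rw [field_val]
      exact toR_deriv (h1 t)
    · ext z
      constructor
      · rintro ⟨t, rfl⟩
        have h6 : γ t ∈ range γ := ⟨t, rfl⟩
        rw [h2] at h6
        obtain ⟨φ, hφ⟩ := h6
        exact ⟨φ, congrArg toR hφ⟩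
      · rintro ⟨φ, rfl⟩
        have h6 : Wf k ζ ((s:ℂ) * Complex.exp (φ * Complex.I)) ∈ range γ := by
          rw [h2]; exact ⟨φ, rfl⟩
        obtain ⟨t, ht⟩ := h6
        exact ⟨t, by simp only [ht]⟩
    · intro t
      have := h4 t
      simp only [Tp]
      rw [this]
    · intro τ h6 h7 h8
      exact h5 τ h6 h7 (toR_inj h8)
  · intro s hs
    refine ⟨0, ?_⟩
    simp
  · intro s hs
    exact (section_smooth k ζ hs.1 (hsub s hs).2).contDiffWithinAt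
  · intro s hs
    rw [(section_deriv k ζ hs.1 (hsub s hs).2).deriv, field_val, Wf_pow hk hζ]
    have hs1 : (0:ℝ) < 1 - s := by linarith [(hsub s hs).2]
    have hs1c : (1 - (s:ℂ)) ≠ 0 := by
      have : ((1 - s : ℝ) : ℂ) ≠ 0 := by exact_mod_cast hs1.ne'
      simpa using this
    have hp : 0 < pv p (Wf k ζ (s:ℂ)) := by
      have := hposc s hs 0
      simpa using this
    have hW : Wf k ζ (s:ℂ) ≠ 0 := by
      intro h0
      have h1 := Wf_pow hk hζ (s:ℂ)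
      rw [h0, zero_pow hk.ne'] at h1
      exact one_div_ne_zero hs1c h1.symm
    have e1 : Wf k ζ (s:ℂ) * ((1:ℂ) / k) / (1 - (s:ℂ)) =
        Wf k ζ (s:ℂ) * ((1 / k / (1 - s) : ℝ) : ℂ) := by
      push_cast; ring
    have e2 : Complex.I * (pv p (Wf k ζ (s:ℂ)) : ℂ) * Wf k ζ (s:ℂ) * (1 / (1 - (s:ℂ)) - 1) =
        Complex.I * ((pv p (Wf k ζ (s:ℂ)) * (s / (1 - s)) : ℝ) : ℂ) * Wf k ζ (s:ℂ) := by
      push_cast
      field_simp
      ring
    rw [e1, e2]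
    exact cross hW (by positivity) (mul_pos hp (div_pos hs.1 hs1))
  · intro s hs
    exact (Tp_analytic hk ζ p hs.1 (hsub s hs).2 (hposc s hs)).contDiffAt.contDiffWithinAt
  · intro s hs s' hs' h
    exact (Orb_inj hk hζ hζ (hsub s hs) (hsub s' hs') h).2
  · intro U hU
    have h1 : toR ⁻¹' U ∈ 𝓝 ζ := toR_cont.continuousAt hU
    obtain ⟨δ, hδ, h2⟩ := Wf_ends k ζ h1
    refine ⟨δ, hδ, ?_⟩
    rintro s hs hsδ z ⟨φ, rfl⟩
    exact h2 _ (by rw [norm_circ hs.1.le]; exact hsδ)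
  · have h1 := Wf_nhds k hk hζ0 hL0
    have h2 : toR '' {w | ∃ v : ℂ, ‖v‖ < L ∧ w = Wf k ζ v} ∈ 𝓝 (toR ζ) := by
      have h3 : (fun z : ℝ × ℝ => (⟨z.1, z.2⟩ : ℂ)) ⁻¹' {w | ∃ v : ℂ, ‖v‖ < L ∧ w = Wf k ζ v}
          ∈ 𝓝 (toR ζ) := by
        have hc : Continuous (fun z : ℝ × ℝ => (⟨z.1, z.2⟩ : ℂ)) :=
          Complex.equivRealProdCLM.symm.continuous
        exact hc.continuousAt h1
      filter_upwards [h3] with z hz
      exact ⟨_, hz, rfl⟩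
    refine Filter.mem_of_superset h2 ?_
    rintro z ⟨w, ⟨v, hv, rfl⟩, rfl⟩
    by_cases hv0 : v = 0
    · subst hv0
      rw [Wf_zero]
      exact mem_insert _ _
    · refine mem_insert_of_mem _ ?_
      rw [mem_iUnion₂]
      refine ⟨‖v‖, ⟨norm_pos_iff.mpr hv0, hv⟩, Complex.arg v, ?_⟩
      rw [Complex.norm_mul_exp_arg_mul_I]

theorem lower_bound {K N : ℕ} (hK : 2 ≤ K) (hN : 2 ^ K ≤ N) :
    ((∑ j ∈ Finset.range (K - 1), 2 ^ (j + 1) * (2 ^ (K - 2) * 2 ^ (K - 2 - j) - 1) : ℕ) : ℕ∞)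
      ≤ maxCriticalPeriods (N + (2 ^ K + 1)) := by
  have hlev : ∀ j, ∃ x : ℕ → ℝ, ∃ d : ℕ → ℕ → ℝ, j ≤ K - 2 →
      (∀ i i', i < i' → i' ≤ 2 ^ (K - 2) * 2 ^ (K - 2 - j) → x i < x i') ∧
      (∀ i, i ≤ 2 ^ (K - 2) * 2 ^ (K - 2 - j) → x i ∈ Ioo (0:ℝ) 1) ∧
      ∀ i, i < 2 ^ (K - 2) * 2 ^ (K - 2 - j) →
        GG K j d (x (i + 1)) - GG K j d (x i) = -(2 * (-1) ^ i) := by
    intro j
    by_cases hj : j ≤ K - 2
    · obtain ⟨x, h1, h2, d, h3⟩ := level hK hj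
      exact ⟨x, d, fun _ => ⟨h1, h2, h3⟩⟩
    · exact ⟨fun _ => 0, fun _ _ => 0, fun h => absurd h hj⟩
  choose x d hxd using hlev
  -- common bound for the amplitudes
  obtain ⟨L, hL⟩ : ∃ L : ℝ, (0 < L ∧ L < 1) ∧ ∀ j ∈ Finset.range (K - 1),
      ∀ i ∈ Finset.range (2 ^ (K - 2) * 2 ^ (K - 2 - j) + 1), x j i < L := by
    have h1 : ∀ᶠ L in 𝓝[<] (1:ℝ), 0 < L ∧ L < 1 := by
      filter_upwards [Ioo_mem_nhdsLT (zero_lt_one' ℝ)] with L hL using hL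
    have h2 : ∀ᶠ L in 𝓝[<] (1:ℝ), ∀ j ∈ Finset.range (K - 1),
        ∀ i ∈ Finset.range (2 ^ (K - 2) * 2 ^ (K - 2 - j) + 1), x j i < L := by
      rw [Filter.eventually_all_finset]
      intro j hj
      rw [Filter.eventually_all_finset]
      intro i hi
      rw [Finset.mem_range] at hi hj
      have h3 := ((hxd j (by omega)).2.1 i (by omega)).2
      filter_upwards [Ioo_mem_nhdsLT h3] with L hL using hL.1
    exact (h1.and h2).exists
  obtain ⟨⟨hL0, hL1⟩, hL⟩ := hL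
  -- choice of the small parameter
  obtain ⟨ε, hε⟩ : ∃ ε : ℝ, 0 < ε ∧ ∀ j ∈ Finset.range (K - 1), ∀ u ∈ Finset.range (2 ^ (j + 1)),
      (∀ v : ℂ, ‖v‖ ≤ L → 0 < pv (pf K N d ε) (Wf (2 ^ K) (zt j u) v)) ∧
      ∀ i ∈ Finset.range (2 ^ (K - 2) * 2 ^ (K - 2 - j)), 0 < -((-1) ^ u * (-(2 * (-1) ^ i))) *
        (Tp (2 ^ K) (zt j u) (pf K N d ε) (x j (i + 1)) -
          Tp (2 ^ K) (zt j u) (pf K N d ε) (x j i)) := by
    have h1 : ∀ᶠ ε in 𝓝[>] (0:ℝ), 0 < ε := eventually_mem_nhdsWithin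
    have h2 : ∀ᶠ ε in 𝓝[>] (0:ℝ), ∀ j ∈ Finset.range (K - 1),
        ∀ u ∈ Finset.range (2 ^ (j + 1)),
      (∀ v : ℂ, ‖v‖ ≤ L → 0 < pv (pf K N d ε) (Wf (2 ^ K) (zt j u) v)) ∧
      ∀ i ∈ Finset.range (2 ^ (K - 2) * 2 ^ (K - 2 - j)), 0 < -((-1) ^ u * (-(2 * (-1) ^ i))) *
        (Tp (2 ^ K) (zt j u) (pf K N d ε) (x j (i + 1)) -
          Tp (2 ^ K) (zt j u) (pf K N d ε) (x j i)) := by
      rw [Filter.eventually_all_finset]
      intro j hj
      rw [Filter.eventually_all_finset]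
      intro u hu
      refine (pos_eventually hK N d (zt j u) hL1).and ?_
      rw [Filter.eventually_all_finset]
      intro i hi
      rw [Finset.mem_range] at hi hj
      obtain ⟨a1, a2, a3⟩ := hxd j (by omega)
      refine sign_eventually hK N d (by omega) u (a2 i (by omega)) (a2 (i + 1) (by omega))
        (a3 i hi) ?_
      simp
    exact (h1.and h2).exists
  obtain ⟨hε0, hε⟩ := hε
  set p := pf K N d ε with hp
  set k : ℕ := 2 ^ K with hk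
  have hkpos : 0 < k := by rw [hk]; positivity
  -- critical points in every cell
  have hcrit : ∀ j u, ∃ s : ℕ → ℝ, j ∈ Finset.range (K - 1) → u ∈ Finset.range (2 ^ (j + 1)) →
      (∀ i, i + 1 < 2 ^ (K - 2) * 2 ^ (K - 2 - j) → s i ∈ Ioo 0 L ∧
        deriv (Tp k (zt j u) p) (s i) = 0 ∧
        ∀ᶠ r in 𝓝[≠] (s i), deriv (Tp k (zt j u) p) r ≠ 0) ∧
      ∀ i i', i < i' → i' + 1 < 2 ^ (K - 2) * 2 ^ (K - 2 - j) → s i < s i' := by
    intro j u
    by_cases h : j ∈ Finset.range (K - 1) ∧ u ∈ Finset.range (2 ^ (j + 1))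
    · obtain ⟨hj, hu⟩ := h
      obtain ⟨b1, b2⟩ := hε j hj u hu
      have hj' : j ≤ K - 2 := by rw [Finset.mem_range] at hj; omega
      obtain ⟨a1, a2, a3⟩ := hxd j hj'
      have hT : ∀ s ∈ Ioo 0 L, AnalyticAt ℝ (Tp k (zt j u) p) s := fun s hs =>
        Tp_analytic hkpos (zt j u) p hs.1 (hs.2.trans hL1)
          (fun φ => b1 _ (by rw [norm_circ hs.1.le]; exact hs.2.le))
      obtain ⟨s, c1, c2⟩ := Pool.Agent.Helper284.CPCrit.crit_points hT (x j) a1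
        (fun i hi => ⟨(a2 i hi).1, hL j hj i (Finset.mem_range.mpr (by omega))⟩)
        (2 * (-1) ^ u) (fun i hi => by
          have := b2 i (Finset.mem_range.mpr hi)
          have e : -((-1:ℝ) ^ u * (-(2 * (-1) ^ i))) = 2 * (-1) ^ u * (-1) ^ i := by ring
          rw [e] at this
          exact this)
      exact ⟨s, fun _ _ => ⟨c1, c2⟩⟩
    · exact ⟨fun _ => 0, fun h1 h2 => absurd ⟨h1, h2⟩ h⟩
  choose s hs using hcrit
  -- the index set
  set A : Finset (Σ _ : ℕ, ℕ × ℕ) := Finset.sigma (Finset.range (K - 1))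
    (fun j => (Finset.range (2 ^ (j + 1))) ×ˢ
      (Finset.range (2 ^ (K - 2) * 2 ^ (K - 2 - j) - 1))) with hA
  have hAcard : A.card = ∑ j ∈ Finset.range (K - 1),
      2 ^ (j + 1) * (2 ^ (K - 2) * 2 ^ (K - 2 - j) - 1) := by
    rw [hA, Finset.card_sigma]
    refine Finset.sum_congr rfl (fun j _ => ?_)
    rw [Finset.card_product, Finset.card_range, Finset.card_range]
  set Ψ : (Σ _ : ℕ, ℕ × ℕ) → Set (ℝ × ℝ) := fun a =>
    Orb k (zt a.1 a.2.1) (s a.1 a.2.1 a.2.2) with hΨ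
  have hmemA : ∀ a ∈ A, a.1 ∈ Finset.range (K - 1) ∧ a.2.1 ∈ Finset.range (2 ^ (a.1 + 1)) ∧
      a.2.2 + 1 < 2 ^ (K - 2) * 2 ^ (K - 2 - a.1) := by
    intro a ha
    rw [hA, Finset.mem_sigma, Finset.mem_product] at ha
    refine ⟨ha.1, ha.2.1, ?_⟩
    have := ha.2.2
    rw [Finset.mem_range] at this
    omega
  have hzt1 : ∀ a ∈ A, zt a.1 a.2.1 ^ k = 1 := by
    intro a ha
    have h1 := (hmemA a ha).1
    rw [Finset.mem_range] at h1
    exact zt_pow_one _ (by omega)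
  have hΨmem : ∀ a ∈ A, Ψ a ∈ criticalOrbits (field (Pf k p) (Qf k p)) := by
    intro a ha
    obtain ⟨h1, h2, h3⟩ := hmemA a ha
    obtain ⟨c1, c2⟩ := hs a.1 a.2.1 h1 h2
    obtain ⟨d1, d2, d3⟩ := c1 a.2.2 h3
    exact ⟨toR (zt a.1 a.2.1), L, _, Orb k (zt a.1 a.2.1), Tp k (zt a.1 a.2.1) p,
      family hkpos (hzt1 a ha) (zt_ne _ _) p hL0 hL1 (hε a.1 h1 a.2.1 h2).1,
      s a.1 a.2.1 a.2.2, d1, d2, d3, rfl⟩
  have hΨinj : Set.InjOn Ψ (A : Set (Σ _ : ℕ, ℕ × ℕ)) := by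
    intro a ha b hb hab
    have ha' : a ∈ A := ha
    have hb' : b ∈ A := hb
    obtain ⟨h1, h2, h3⟩ := hmemA a ha'
    obtain ⟨g1, g2, g3⟩ := hmemA b hb'
    obtain ⟨c1, c2⟩ := hs a.1 a.2.1 h1 h2
    obtain ⟨e1, e2⟩ := hs b.1 b.2.1 g1 g2
    have ms := (c1 a.2.2 h3).1
    have ms' := (e1 b.2.2 g3).1
    obtain ⟨i1, i2⟩ := Orb_inj hkpos (hzt1 a ha') (hzt1 b hb') ⟨ms.1, ms.2.trans hL1⟩
      ⟨ms'.1, ms'.2.trans hL1⟩ hab
    obtain ⟨j1, j2⟩ := zt_inj (Finset.mem_range.mp h2) (Finset.mem_range.mp g2) i1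
    obtain ⟨a1, a2, a3⟩ := a
    obtain ⟨b1, b2, b3⟩ := b
    simp only at j1 j2 i2 c2 e2 h3 g3
    subst j1
    subst j2
    have : a3 = b3 := by
      rcases lt_trichotomy a3 b3 with h | h | h
      · have := c2 a3 b3 h g3
        linarith
      · exact h
      · have := c2 b3 a3 h h3
        linarith
    rw [this]
  -- conclusion
  have hdeg : max (Pf k p).totalDegree (Qf k p).totalDegree = N + (k + 1) := by
    rw [PQ_deg (by omega) (pf_ne hK hN d hε0.ne'), pf_deg hK hN d hε0.ne']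
  have hcount : ((A.card : ℕ) : ℕ∞) ≤ (criticalOrbits (field (Pf k p) (Qf k p))).encard := by
    rw [← Set.encard_coe_eq_coe_finsetCard, ← hΨinj.encard_image]
    apply Set.encard_le_encard
    rintro C ⟨a, ha, rfl⟩
    exact hΨmem a ha
  rw [← hAcard]
  refine hcount.trans ?_
  unfold maxCriticalPeriods
  exact le_iSup_of_le (Pf k p) (le_iSup_of_le (Qf k p) (le_iSup_of_le hdeg le_rfl))

theorem count_bound {K : ℕ} (hK : 2 ≤ K) : (K - 1) * 2 ^ (2 * K - 3) ≤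
    (∑ j ∈ Finset.range (K - 1), 2 ^ (j + 1) * (2 ^ (K - 2) * 2 ^ (K - 2 - j) - 1)) + 2 ^ K := by
  have h1 : ∀ j ∈ Finset.range (K - 1), 2 ^ (2 * K - 3) =
      2 ^ (j + 1) * (2 ^ (K - 2) * 2 ^ (K - 2 - j) - 1) + 2 ^ (j + 1) := by
    intro j hj
    rw [Finset.mem_range] at hj
    have h2 : 1 ≤ 2 ^ (K - 2) * 2 ^ (K - 2 - j) := Nat.one_le_iff_ne_zero.mpr (by positivity)
    have h3 : 2 ^ (j + 1) * (2 ^ (K - 2) * 2 ^ (K - 2 - j)) = 2 ^ (2 * K - 3) := by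
      rw [← pow_add, ← pow_add]; congr 1; omega
    rw [← h3]
    obtain ⟨m, hm⟩ := Nat.exists_eq_add_of_le h2
    rw [hm]
    simp
    ring
  have h4 : ∑ j ∈ Finset.range (K - 1), 2 ^ (2 * K - 3) =
      ∑ j ∈ Finset.range (K - 1), (2 ^ (j + 1) * (2 ^ (K - 2) * 2 ^ (K - 2 - j) - 1)
        + 2 ^ (j + 1)) := Finset.sum_congr rfl h1
  rw [Finset.sum_const, Finset.card_range, smul_eq_mul, Finset.sum_add_distrib] at h4
  rw [h4]
  have h5 : ∀ m : ℕ, ∑ j ∈ Finset.range m, 2 ^ (j + 1) ≤ 2 ^ (m + 1) := by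
    intro m
    induction m with
    | zero => simp
    | succ m ih =>
      rw [Finset.sum_range_succ, pow_succ 2 (m + 1)]
      omega
  have h6 := h5 (K - 1)
  rw [show K - 1 + 1 = K by omega] at h6
  omega

/-- **The maximal number of critical periods of planar polynomial systems of degree `n` grows at
least like `n² log n`.** -/
theorem result : ∃ C : ℝ, 0 < C ∧ ∃ n₀ : ℕ, ∀ n : ℕ, n₀ ≤ n →
    ENNReal.ofReal (C * n ^ 2 * Real.log n) ≤ (maxCriticalPeriods n : ENNReal) := by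
  refine ⟨1 / 640, by norm_num, 17, ?_⟩
  intro n hn
  set K := Nat.log 2 (n - 1) - 1 with hKdef
  have hlog4 : 4 ≤ Nat.log 2 (n - 1) := by
    apply Nat.le_log_of_pow_le (by norm_num)
    norm_num
    omega
  have hK3 : 3 ≤ K := by omega
  have hKlog : Nat.log 2 (n - 1) = K + 1 := by omega
  have hlow : 2 ^ (K + 1) ≤ n - 1 := by
    rw [← hKlog]; exact Nat.pow_log_le_self 2 (by omega)
  have hup : n - 1 < 2 ^ (K + 2) := by
    have := Nat.lt_pow_succ_log_self (b := 2) (by norm_num) (n - 1)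
    rw [hKlog] at this
    exact this
  have e2 : 2 ^ (K + 1) = 2 ^ K + 2 ^ K := by rw [pow_succ]; ring
  have hN : 2 ^ K ≤ n - (2 ^ K + 1) := by omega
  have hn' : n - (2 ^ K + 1) + (2 ^ K + 1) = n := by omega
  have hmain := lower_bound (K := K) (N := n - (2 ^ K + 1)) (by omega) hN
  rw [hn'] at hmain
  have hcount := count_bound (K := K) (by omega)
  set S := ∑ j ∈ Finset.range (K - 1), 2 ^ (j + 1) * (2 ^ (K - 2) * 2 ^ (K - 2 - j) - 1) with hS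
  have hreal : (1 / 640 : ℝ) * n ^ 2 * Real.log n ≤ (S : ℝ) := by
    have hnR : (n:ℝ) ≤ 2 ^ (K + 2) := by
      have h1 : n ≤ 2 ^ (K + 2) := by omega
      exact_mod_cast h1
    have hn0 : (0:ℝ) < n := by
      have : 0 < n := by omega
      exact_mod_cast this
    have hn1 : (1:ℝ) ≤ n := by
      have : 1 ≤ n := by omega
      exact_mod_cast this
    have hlogn : Real.log n ≤ K + 2 := by
      have h1 : Real.log n ≤ Real.log (2 ^ (K + 2)) := Real.log_le_log hn0 hnR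
      rw [Real.log_pow] at h1
      have h2 : Real.log 2 ≤ 1 := by
        have := Real.log_two_lt_d9
        linarith
      have h3 : (0:ℝ) ≤ ((K + 2 : ℕ) : ℝ) := by positivity
      have h4 : ((K + 2 : ℕ) : ℝ) * Real.log 2 ≤ ((K + 2 : ℕ) : ℝ) * 1 :=
        mul_le_mul_of_nonneg_left h2 h3
      push_cast at h1 h4
      linarith
    have hlog0 : 0 ≤ Real.log n := Real.log_nonneg hn1
    have hn2 : (n:ℝ) ^ 2 ≤ 16 * (2 ^ K) ^ 2 := by
      have h1 : (n:ℝ) ^ 2 ≤ (2 ^ (K + 2)) ^ 2 := pow_le_pow_left₀ hn0.le hnR 2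
      have h2 : ((2:ℝ) ^ (K + 2)) ^ 2 = 16 * (2 ^ K) ^ 2 := by rw [pow_add]; ring
      rwa [h2] at h1
    have hprod : (1 / 640 : ℝ) * n ^ 2 * Real.log n ≤ (1 / 640) * (16 * (2 ^ K) ^ 2) * (K + 2) := by
      have hq : (1 / 640 : ℝ) * n ^ 2 ≤ (1 / 640) * (16 * (2 ^ K) ^ 2) := by linarith
      exact mul_le_mul hq hlogn hlog0 (by positivity)
    have hcR : ((K:ℝ) - 1) * ((2 ^ K) ^ 2 / 8) ≤ (S:ℝ) + 2 ^ K := by
      have h1 : (((K - 1) * 2 ^ (2 * K - 3) : ℕ) : ℝ) ≤ ((S + 2 ^ K : ℕ) : ℝ) := by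
        exact_mod_cast hcount
      have h2 : ((2:ℝ)) ^ (2 * K - 3) = (2 ^ K) ^ 2 / 8 := by
        have h3 : ((2:ℝ)) ^ (2 * K - 3) * 8 = (2 ^ K) ^ 2 := by
          rw [← pow_mul, show (8:ℝ) = 2 ^ 3 by norm_num, ← pow_add]
          congr 1; omega
        linarith
      have h3 : ((K - 1 : ℕ) : ℝ) = (K:ℝ) - 1 := by
        rw [Nat.cast_sub (by omega)]; simp
      push_cast at h1
      rw [h3, h2] at h1
      exact h1
    have hK3R : (3:ℝ) ≤ K := by exact_mod_cast hK3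
    have h8 : (8:ℝ) ≤ 2 ^ K := by
      have h1 : 2 ^ 3 ≤ 2 ^ K := Nat.pow_le_pow_right (by norm_num) hK3
      have h2 : ((2 ^ 3 : ℕ) : ℝ) ≤ ((2 ^ K : ℕ) : ℝ) := by exact_mod_cast h1
      push_cast at h2
      linarith
    have h9 : (40:ℝ) * 2 ^ K ≤ (2 ^ K) ^ 2 * (4 * K - 7) := by
      have h10 : (40:ℝ) ≤ 2 ^ K * (4 * K - 7) := by nlinarith
      have h11 : (0:ℝ) < 2 ^ K := by positivity
      calc (40:ℝ) * 2 ^ K ≤ (2 ^ K * (4 * K - 7)) * 2 ^ K :=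
            mul_le_mul_of_nonneg_right h10 h11.le
        _ = (2 ^ K) ^ 2 * (4 * K - 7) := by ring
    nlinarith
  calc ENNReal.ofReal ((1 / 640) * n ^ 2 * Real.log n)
      ≤ ENNReal.ofReal (S : ℝ) := ENNReal.ofReal_le_ofReal hreal
    _ = ((S : ℕ) : ENNReal) := ENNReal.ofReal_natCast S
    _ = (((S : ℕ) : ℕ∞) : ENNReal) := by simp
    _ ≤ (maxCriticalPeriods n : ENNReal) := by exact_mod_cast hmain

end Pool.Agent.Results.MP_48dd78_an.CriticalPeriodsGrowth
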